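import Pool.Agent.H85.SelSuslin
import Pool.Agent.Lib.H94.DiaSuslin
import Pool.Agent.Lib.Helper88.SuslinDefs

/-!
# Chunk S1: diamond gives the continuum hypothesis and a Suslin tree
-/

set_option autoImplicit false

open Set Function

namespace Pool.Agent.H96D

open Pool.Agent.H85.Sel Pool.Agent.H94.Dia

theorem suslin_of_free {T : Type} [PartialOrder T] {ht : T → Ordinal.{0}}
    (hT : IsFreeSuslinTree T ht) : Helper88.SuslinTree.IsSuslinTree T := by
  have hwf : WellFounded ((· < ·) : T → T → Prop) :=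
    Subrelation.wf (fun {a b} (h : a < b) => (hT.ht_strictMono h : ht a < ht b))
      (InvImage.wf ht Ordinal.lt_wf)
  have hanti : ∀ A : Set T, IsAntichain (· ≤ ·) A → A.Countable := by
    intro A hA
    have h1 : A ⊆ ⋃ r ∈ {t : T | ht t = 0}, {x | x ∈ A ∧ r ≤ x} := by
      intro x hx
      obtain ⟨r, ⟨hr, hr0⟩, -⟩ := hT.exists_unique_pred x 0 zero_le
      simp only [mem_iUnion]
      exact ⟨r, hr0, hx, hr⟩
    refine (Countable.biUnion (hT.level_countable 0) fun r hr => ?_).mono h1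
    have h2 := hT.free 1 (fun _ => r) (fun a b _ => Subsingleton.elim a b) (fun _ _ => rfl)
      {x | x 0 ∈ A ∧ r ≤ x 0} (fun x hx i => by
        rw [Subsingleton.elim i 0]; exact hx.2) (by
        rintro x ⟨hx, -⟩ y ⟨hy, -⟩ hxy ⟨z, hz⟩
        have hne : x 0 ≠ y 0 := fun h => hxy (funext fun i => by
          rw [Subsingleton.elim i 0]; exact h)
        rcases le_total (ht (x 0)) (ht (y 0)) with h | h
        · exact hA hx hy hne (hT.le_of_le (hz 0).1 (hz 0).2 h)
        · exact hA hy hx hne.symm (hT.le_of_le (hz 0).2 (hz 0).1 h))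
    have h3 : {x | x ∈ A ∧ r ≤ x} ⊆ (fun x : Fin 1 → T => x 0) '' {x | x 0 ∈ A ∧ r ≤ x 0} :=
      fun x hx => ⟨fun _ => x, hx, rfl⟩
    exact (h2.image _).mono h3
  refine ⟨fun t => ⟨?_, ?_⟩, ?_, ?_, hanti⟩
  · intro a ha b hb _
    rcases le_total (ht a) (ht b) with h | h
    · exact Or.inl (hT.le_of_le (mem_Iio.1 ha).le (mem_Iio.1 hb).le h)
    · exact Or.inr (hT.le_of_le (mem_Iio.1 hb).le (mem_Iio.1 ha).le h)
  · exact hwf.wellFoundedOn
  · intro hc
    obtain ⟨t0⟩ := hT.nonempty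
    obtain ⟨r, ⟨-, hr0⟩, -⟩ := hT.exists_unique_pred t0 0 zero_le
    have h1 : ∀ α : W1, ∃ s : T, ht s = α.1 := by
      intro α
      obtain ⟨s, -, hs⟩ := hT.exists_ext r α.1 (by rw [hr0]; exact zero_le) α.2
      exact ⟨s, hs⟩
    choose s hs using h1
    have hinj : Injective s := fun a b h => Subtype.ext (by rw [← hs a, ← hs b, h])
    have h2 : Countable T := countable_univ_iff.1 hc
    exact isOmega1.not_countable (countable_univ_iff.2 hinj.countable)
  · intro C hC
    let A : Set T := {s | (∀ c ∈ C, ¬ s ≤ c) ∧ ∀ r, r < s → ∃ c ∈ C, r ≤ c}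
    have hA : A.Countable := by
      refine hanti A ?_
      intro s hs s' hs' hne hle
      obtain ⟨c, hc, hsc⟩ := hs'.2 s (lt_of_le_of_ne hle hne)
      exact hs.1 c hc hsc
    have key : ∀ t ∈ C, ∃ s ∈ A, t ≤ s := by
      intro t ht'
      obtain ⟨a, b, hta, htb, hab⟩ := hT.split t
      have h1 : ∃ f, t ≤ f ∧ ∀ c ∈ C, ¬ f ≤ c := by
        by_contra hcon
        push Not at hcon
        obtain ⟨c, hc, hac⟩ := hcon a hta
        obtain ⟨c', hc', hbc⟩ := hcon b htb
        rcases hC.total hc hc' with h | h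
        · exact hab ⟨c', hac.trans h, hbc⟩
        · exact hab ⟨c, hac, hbc.trans h⟩
      obtain ⟨f, htf, hf⟩ := h1
      let S : Set T := {s | s ≤ f ∧ ∀ c ∈ C, ¬ s ≤ c}
      have hS : S.Nonempty := ⟨f, le_rfl, hf⟩
      have hm := hwf.min_mem S hS
      refine ⟨hwf.min S hS, ⟨hm.2, ?_⟩, ?_⟩
      · intro r hr
        by_contra hcon
        push Not at hcon
        exact hwf.not_lt_min S (show r ∈ S from ⟨hr.le.trans hm.1, hcon⟩) hr
      · rcases le_total (ht t) (ht (hwf.min S hS)) with h | h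
        · exact hT.le_of_le htf hm.1 h
        · exact (hm.2 t ht' (hT.le_of_le hm.1 htf h)).elim
    obtain ⟨α, hα, hα'⟩ : ∃ α : Ordinal.{0}, α < Ordinal.omega 1 ∧ ∀ s ∈ A, ht s ≤ α := by
      rcases A.eq_empty_or_nonempty with h | h
      · exact ⟨0, Ordinal.omega_pos 1, fun s hs => by rw [h] at hs; exact hs.elim⟩
      · obtain ⟨e, he⟩ := hA.exists_eq_range h
        refine ⟨⨆ n, ht (e n), Ordinal.iSup_lt_omega_one fun n => hT.ht_lt _, ?_⟩
        intro s hs
        rw [he] at hs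
        obtain ⟨n, rfl⟩ := hs
        exact Ordinal.le_iSup (fun n => ht (e n)) n
    refine (hT.countable_le α hα).mono fun t ht' => ?_
    obtain ⟨s, hs, hts⟩ := key t ht'
    exact (hT.ht_strictMono.monotone hts).trans (hα' s hs)

theorem ch_of_diamond (h : Diamond) :
    (Cardinal.continuum : Cardinal.{0}) = Cardinal.aleph 1 := by
  obtain ⟨A, hA⟩ := h
  refine le_antisymm ?_ Cardinal.aleph_one_le_continuum
  have hω : (Ordinal.omega0 : Ordinal.{0}) < Ordinal.omega 1 := Ordinal.omega0_lt_omega_one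
  have hn : ∀ n : ℕ, (n : Ordinal.{0}) < Ordinal.omega 1 := fun n =>
    (Ordinal.natCast_lt_omega0 n).trans hω
  let S' : Set ℕ → Set W1 := fun S => {α | ∃ n ∈ S, α.1 = (n : Ordinal.{0})}
  have hclub : IsClub (Ici (⟨Ordinal.omega0, hω⟩ : W1)) := by
    constructor
    · intro d hd hne _ x hx
      obtain ⟨y, hy⟩ := hne
      exact (mem_Ici.1 (hd hy)).trans (hx.1 hy)
    · intro a
      exact ⟨max a ⟨Ordinal.omega0, hω⟩, mem_Ici.2 (le_max_right _ _), le_max_left _ _⟩
  have h1 : ∀ S : Set ℕ, ∃ α : W1, (⟨Ordinal.omega0, hω⟩ : W1) ≤ α ∧ S' S ∩ Iio α = A α := by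
    intro S
    obtain ⟨α, h1, h2⟩ := hA (S' S) hclub
    exact ⟨α, h2, h1⟩
  choose f hf hf' using h1
  have hinj : Injective f := by
    intro S T hST
    ext n
    have key : ∀ S : Set ℕ, n ∈ S ↔ (⟨(n : Ordinal.{0}), hn n⟩ : W1) ∈ A (f S) := by
      intro S
      rw [← hf' S]
      constructor
      · intro h
        refine ⟨⟨n, h, rfl⟩, ?_⟩
        exact lt_of_lt_of_le (show (⟨(n : Ordinal.{0}), hn n⟩ : W1) < ⟨Ordinal.omega0, hω⟩ from
          Ordinal.natCast_lt_omega0 n) (hf S)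
      · rintro ⟨⟨m, hm, hnm⟩, -⟩
        have : n = m := by
          have h3 : (n : Ordinal.{0}) = (m : Ordinal.{0}) := hnm
          exact_mod_cast h3
        rw [this]
        exact hm
    rw [key S, key T, hST]
  have h2 : Cardinal.lift.{1, 0} (Cardinal.mk (Set ℕ)) ≤ Cardinal.lift.{0, 1} (Cardinal.mk W1) :=
    Cardinal.lift_mk_le_lift_mk_of_injective hinj
  have h3 : Cardinal.mk W1 = Cardinal.lift.{1, 0} (Cardinal.aleph 1) := by
    rw [Cardinal.mk_Iio_ordinal, ← Cardinal.ord_aleph, Cardinal.card_ord]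
  rw [h3, Cardinal.lift_uzero, Cardinal.lift_le] at h2
  simpa using h2

theorem exists_suslin_of_diamond (h : Diamond) :
    ∃ (T : Type) (_ : PartialOrder T), Helper88.SuslinTree.IsSuslinTree T := by
  obtain ⟨T, inst, ht, hT⟩ := exists_freeSuslin_of_diamond h
  exact ⟨T, inst, suslin_of_free hT⟩

end Pool.Agent.H96D
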