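import Pool.Agent.Lib.H5Z.Defs

/-!
# Jensen's diamond as a sentence of set theory

The notions of Pool.Agent.Lib.H5Z.Defs (`IsOmega`, `Rel`) are notions inside a structure `(M, E)`
for the language of set theory.
-/

set_option autoImplicit false

open Set Function

namespace Pool.Agent.H96D

open Pool.Agent.H5Z

section Notions

variable {M : Type*} (E : M → M → Prop)

/-- `k` is an ordinal: a transitive set all of whose elements are transitive. -/
def IsOrdIn (k : M) : Prop :=
  (∀ a, E a k → ∀ b, E b a → E b k) ∧ ∀ a, E a k → ∀ b, E b a → ∀ c, E c b → E c a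

/-- `x` is countable: there is a set `f` of pairs which is single-valued at the elements of `w = ω`
and such that each element of `x` is the value of `f` at an element of `w`. -/
def CtblIn (w x : M) : Prop :=
  ∃ f, (∀ n y y', E n w → Rel E n y f → Rel E n y' f → y = y') ∧
    ∀ y, E y x → ∃ n, E n w ∧ Rel E n y f

/-- `k` is the first uncountable ordinal of `(M, E)` (`w` is `ω`): an uncountable ordinal all of
whose elements are countable. -/
def IsOmegaOne (w k : M) : Prop :=
  IsOrdIn E k ∧ ¬ CtblIn E w k ∧ ∀ a, E a k → CtblIn E w a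

/-- `C ∩ k` is unbounded in the ordinal `k`. -/
def IsUnbIn (k C : M) : Prop := ∀ a, E a k → ∃ b, E b k ∧ E b C ∧ E a b

/-- `C ∩ k` is closed in the ordinal `k`: it contains each nonzero `a ∈ k` such that each element
of `a` is smaller than some element of `C ∩ a`. -/
def IsClosedIn (k C : M) : Prop :=
  ∀ a, E a k → (∃ b, E b a) → (∀ b, E b a → ∃ c, E c a ∧ E c C ∧ E b c) → E a C

/-- Jensen's principle `◇`: there is a set `s` such that, with `s_a = {b : (a, b) ∈ s}`, for each
set `X` and each `C` closed and unbounded in `k = ω₁` there is `a ∈ C` with `X ∩ a = s_a ∩ a`. -/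
def DiaIn : Prop :=
  ∃ w k s : M, IsOmega E w ∧ IsOmegaOne E w k ∧
    ∀ X C, IsUnbIn E k C → IsClosedIn E k C →
      ∃ a, E a k ∧ E a C ∧ ∀ b, E b a → (E b X ↔ Rel E a b s)

end Notions

end Pool.Agent.H96D
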