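import Pool.Agent.Lib.H96D.F1

/-!
# Chunk F2: the generic sequence of guesses is a diamond sequence
-/

set_option autoImplicit false

open Set Function

namespace Pool.Agent.H96D

open Pool.Agent.H5Z BSet Fml

variable {Ω : Type} [LinearOrder Ω] [WellFoundedLT Ω]

/-- countably many Boolean values can be decided -/
theorem F2_decide (hΩ : IsW1 Ω) (y : ℕ → RO (Dc Ω)) (p : Dc Ω) :
    ∃ q ≤ p, ∀ n, q ∈ (y n).s ∨ q ∈ ((y n)ᶜ).s := by
  classical
  have step : ∀ (n : ℕ) (q : Dc Ω), ∃ r ≤ q, r ∈ (y n).s ∨ r ∈ ((y n)ᶜ).s := by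
    intro n q
    by_cases h : ∃ r ≤ q, r ∈ (y n).s
    · obtain ⟨r, hr, hra⟩ := h
      exact ⟨r, hr, Or.inl hra⟩
    · push Not at h
      exact ⟨q, le_rfl, Or.inr h⟩
  choose nx hnx hnx2 using step
  let P : ℕ → Dc Ω := fun n => Nat.rec p (fun n q => nx n q) n
  have hP : ∀ n, P (n + 1) ≤ P n := fun n => hnx n (P n)
  obtain ⟨q, hq, -⟩ := exists_lower hΩ P hP
  refine ⟨q, hq 0, fun n => ?_⟩
  rcases hnx2 n (P n) with h | h
  · exact Or.inl ((y n).lower h (hq (n + 1)))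
  · exact Or.inr (((y n)ᶜ).lower h (hq (n + 1)))

/-- all values `x b` for `b < a` can be decided -/
theorem F2_decide_lt (hΩ : IsW1 Ω) (x : Ω → RO (Dc Ω)) (a : Ω) (p : Dc Ω) :
    ∃ q ≤ p, ∀ b, b < a → q ∈ (x b).s ∨ q ∈ ((x b)ᶜ).s := by
  rcases (Iio a).eq_empty_or_nonempty with h | h
  · exact ⟨p, le_rfl, fun b hb => by
      have : b ∈ Iio a := hb
      rw [h] at this
      exact this.elim⟩
  · obtain ⟨e, he⟩ := (hΩ.ini a).exists_eq_range h
    obtain ⟨q, hq, hq'⟩ := F2_decide hΩ (fun n => x (e n)) p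
    refine ⟨q, hq, fun b hb => ?_⟩
    have : b ∈ range e := he ▸ hb
    obtain ⟨n, rfl⟩ := this
    exact hq' n

/-- a condition can be made longer -/
theorem F2_long (p : Dc Ω) (a : Ω) : ∃ q ≤ p, a ≤ q.len :=
  ⟨⟨max p.len a, p.s⟩, ⟨le_max_left _ _, fun _ _ => rfl⟩, le_max_right _ _⟩

theorem mem_gv_iff (p : Dc Ω) (a b : Ω) (h : a < p.len) : p ∈ (gv a b).s ↔ b ∈ p.s a := by
  constructor
  · intro h1
    obtain ⟨r, hr, q, ⟨hq1, hq2⟩, h2⟩ := (RO.mem_gen _ _).1 h1 p le_rfl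
    rw [← h2.2 a hq1, hr.2 a h] at hq2
    exact hq2
  · intro h1
    exact (RO.mem_gen _ _).2 fun q hq => ⟨q, le_rfl, q, ⟨h.trans_le hq.1, by rw [hq.2 a h]; exact h1⟩, le_rfl⟩

theorem forcing_guess (hΩ : IsW1 Ω) (x c : Ω → RO (Dc Ω)) :
    (⨅ a, ⨆ b, ⨆ _ : a < b, c b) ⊓
      (⨅ a, ⨅ _ : (Iio a).Nonempty,
        (⨅ b, ⨅ _ : b < a, ⨆ d, ⨆ _ : b < d ∧ d < a, c d) ⇨ c a) ≤
      ⨆ a, c a ⊓ ⨅ b, ⨅ _ : b < a, iffB (x b) (gv a b) := by
  classical
  intro p0 hp0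
  rw [RO.mem_iSup]
  intro p hp
  replace hp0 := RO.lower _ hp0 hp
  obtain ⟨hunb, hclo⟩ := hp0
  rw [RO.mem_iInf] at hunb hclo
  -- one step
  have step : ∀ q : Dc Ω, ∃ r ≤ q, q ≤ p → (∀ b, b < q.len → r ∈ (x b).s ∨ r ∈ ((x b)ᶜ).s) ∧
      ∃ d, q.len < d ∧ d < r.len ∧ r ∈ (c d).s := by
    intro q
    by_cases hqp : q ≤ p
    · obtain ⟨q1, hq1, h1⟩ := F2_decide_lt hΩ x q.len q
      have h2 := RO.lower _ (hunb q.len) (hq1.trans hqp)
      rw [RO.mem_iSup] at h2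
      obtain ⟨q2, hq2, d, hd⟩ := h2 q1 le_rfl
      rw [RO.mem_iSup] at hd
      obtain ⟨q3, hq3, hdlt, hd3⟩ := hd q2 le_rfl
      obtain ⟨e, he⟩ := hΩ.exists_gt d
      obtain ⟨q4, hq4, h4⟩ := F2_long q3 e
      have h41 : q4 ≤ q1 := hq4.trans (hq3.trans hq2)
      refine ⟨q4, h41.trans hq1, fun _ => ⟨fun b hb => ?_, d, hdlt, he.trans_le h4,
        (c d).lower hd3 hq4⟩⟩
      rcases h1 b hb with h | h
      · exact Or.inl ((x b).lower h h41)
      · exact Or.inr (((x b)ᶜ).lower h h41)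
    · exact ⟨q, le_rfl, fun h => (hqp h).elim⟩
  choose nx hnx hnx2 using step
  let P : ℕ → Dc Ω := fun n => Nat.rec p (fun _ q => nx q) n
  have hP : ∀ n, P (n + 1) ≤ P n := fun n => hnx (P n)
  have hPp : ∀ n, P n ≤ p := fun n => F1_anti P hP 0 n (Nat.zero_le n)
  have hP2 := fun n => hnx2 (P n) (hPp n)
  obtain ⟨q, hq, hqlen⟩ := exists_lower hΩ P hP
  have hPs : ∀ n, P (n + 1) = nx (P n) := fun n => rfl
  -- the limit length is in the club
  have hcδ : q ∈ (c q.len).s := by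
    have h1 := hclo q.len
    rw [RO.mem_iInf] at h1
    obtain ⟨-, d, hd1, hd2, hd3⟩ := hP2 0
    have hne : (Iio q.len).Nonempty := ⟨d, hd2.trans_le (hq 1).1⟩
    have h2 := h1 hne
    rw [RO.mem_himp] at h2
    refine h2 q (hq 0) ?_
    rw [RO.mem_iInf]
    intro b
    rw [RO.mem_iInf]
    intro hb
    obtain ⟨n, hn⟩ := hqlen b hb
    obtain ⟨-, d, hd1, hd2, hd3⟩ := hP2 n
    rw [RO.mem_iSup]
    intro r hr
    refine ⟨r, le_rfl, d, ?_⟩
    rw [RO.mem_iSup]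
    intro r' hr'
    exact ⟨r', le_rfl, ⟨hn.trans hd1, hd2.trans_le (hq (n + 1)).1⟩,
      (c d).lower hd3 (hr'.trans (hr.trans (hq (n + 1))))⟩
  have hdec : ∀ b, b < q.len → q ∈ (x b).s ∨ q ∈ ((x b)ᶜ).s := by
    intro b hb
    obtain ⟨n, hn⟩ := hqlen b hb
    rcases (hP2 n).1 b hn with h | h
    · exact Or.inl ((x b).lower h (hq (n + 1)))
    · exact Or.inr (((x b)ᶜ).lower h (hq (n + 1)))
  obtain ⟨e, he⟩ := hΩ.exists_gt q.len
  let r : Dc Ω := ⟨e, update q.s q.len {b | q ∈ (x b).s}⟩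
  have hr : r ≤ q := ⟨he.le, fun a ha => by
    simp only [r]
    rw [update_of_ne ha.ne]⟩
  have hrs : r.s q.len = {b | q ∈ (x b).s} := by
    simp only [r]
    rw [update_self]
  refine ⟨r, hr.trans (hq 0), q.len, (c q.len).lower hcδ hr, ?_⟩
  rw [RO.mem_iInf]
  intro b
  rw [RO.mem_iInf]
  intro hb
  have hgv := mem_gv_iff r q.len b he
  rw [hrs] at hgv
  rcases hdec b hb with h | h
  · have h1 : r ∈ (gv q.len b).s := hgv.2 h
    constructor
    · rw [RO.mem_himp]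
      intro r' hr' _
      exact RO.lower _ h1 hr'
    · rw [RO.mem_himp]
      intro r' hr' _
      exact (x b).lower h (hr'.trans hr)
  · have h1 : ∀ r' ≤ r, r' ∉ (gv q.len b).s := by
      intro r' hr' hc
      rw [mem_gv_iff r' q.len b (he.trans_le hr'.1), hr'.2 q.len he, hrs] at hc
      exact h q le_rfl hc
    constructor
    · rw [RO.mem_himp]
      intro r' hr' hx
      exact (h r' (hr'.trans hr) hx).elim
    · rw [RO.mem_himp]
      intro r' hr' hx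
      exact (h1 r' hr' hx).elim

theorem isBDia_gv (hΩ : IsW1 Ω) : IsBDia (gv : Ω → Ω → RO (Dc Ω)) :=
  ⟨forcing_unc hΩ, forcing_guess hΩ⟩

end Pool.Agent.H96D
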