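import Pool.Agent.Lib.H96D.N1

/-!
# Chunk N3: elements of `ω₁` are countable, `ω₁` is uncountable
-/

set_option autoImplicit false

open Set Function

namespace Pool.Agent.H96D

open Pool.Agent.H5Z BSet Fml

variable {B : Type} [CompleteBooleanAlgebra B] {Ω : Type} [LinearOrder Ω] [WellFoundedLT Ω]

/-- Boolean value of `f is single-valued on ω` -/
def N3_fun (f : BSet B) : B :=
  ⨅ n, ⨅ y, ⨅ y', memB n omB ⇨ (memB (opair n y) f ⇨ (memB (opair n y') f ⇨ eqB y y'))

/-- Boolean value of `each element of x is a value of f` -/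
def N3_onto (x f : BSet B) : B :=
  ⨅ y, memB y x ⇨ ⨆ n, memB n omB ⊓ memB (opair n y) f

theorem N3_bval (x : ℕ) (hx : x < 90) (v : ℕ → BSet B) (h0 : v 0 = omB) :
    bval (fCtbl x) v = ⨆ f, N3_fun f ⊓ N3_onto (v x) f := by
  have h90 : x ≠ 90 := by omega
  have h92 : x ≠ 92 := by omega
  have e1 := fun w : ℕ → BSet B => bval_fRel 91 92 90 (by decide) (by decide) (by decide) w
  have e2 := fun w : ℕ → BSet B => bval_fRel 91 93 90 (by decide) (by decide) (by decide) w
  simp only [fCtbl, fFun, fOnto, bval_conj, bval_ex, bval, e1, e2, update_apply, N3_fun, N3_onto]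
  simp [h90, h92, h0]

theorem N3_fun_eq (f : BSet B) : N3_fun f =
    ⨅ n : ℕ, ⨅ y, ⨅ y', memB (opair (nchk n) y) f ⇨ (memB (opair (nchk n) y') f ⇨ eqB y y') := by
  have hF : ∀ y y' : BSet B, ExtB (fun n => memB (opair n y) f ⇨ (memB (opair n y') f ⇨ eqB y y')) :=
    fun y y' => E1_extB_himp (extB_opair_left _ _) (E1_extB_himp (extB_opair_left _ _)
      (E1_extB_const _))
  have e : N3_fun f = ⨅ n, memB n omB ⇨ ⨅ y, ⨅ y',
      (memB (opair n y) f ⇨ (memB (opair n y') f ⇨ eqB y y')) := by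
    unfold N3_fun
    refine iInf_congr fun n => ?_
    rw [himp_iInf_eq]
    refine iInf_congr fun y => ?_
    rw [himp_iInf_eq]
  rw [e, iInf_omB _ (E1_extB_iInf fun y => E1_extB_iInf fun y' => hF y y')]

theorem N3_onto_eq (x f : BSet B) : N3_onto x f =
    ⨅ y, memB y x ⇨ ⨆ n : ℕ, memB (opair (nchk n) y) f := by
  unfold N3_onto
  refine iInf_congr fun y => ?_
  rw [iSup_omB _ (extB_opair_left _ _)]

/-- elements of `ω₁` are countable -/
theorem bval_fCtbl_ochk (hΩ : IsW1 Ω) (x : ℕ) (hx : x < 90) (v : ℕ → BSet B) (h0 : v 0 = omB)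
    (a : Ω) (ha : v x = ochk a) : bval (fCtbl x) v = ⊤ := by
  obtain ⟨e, he⟩ := (Set.countable_iff_exists_injective.1 (hΩ.ini a))
  rw [N3_bval x hx v h0, ha, eq_top_iff]
  set fB : BSet B := BSet.mk (Iio a) (fun i => opair (nchk (e i)) (ochk i.1)) (fun _ => ⊤) with hfB
  have hm : ∀ (n : ℕ) (y : BSet B), memB (opair (nchk n) y) fB =
      ⨆ i : Iio a, eqB (nchk n : BSet B) (nchk (e i)) ⊓ eqB y (ochk i.1) := by
    intro n y
    rw [hfB, memB]
    refine iSup_congr fun i => ?_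
    rw [top_inf_eq, eqB_opair]
  refine le_iSup_of_le fB (le_inf ?_ ?_)
  · rw [N3_fun_eq]
    refine le_iInf fun n => le_iInf fun y => le_iInf fun y' => ?_
    rw [le_himp_iff, le_himp_iff, top_inf_eq, hm, hm, iSup_inf_eq]
    refine iSup_le fun i => ?_
    rw [inf_iSup_eq]
    refine iSup_le fun j => ?_
    rw [eqB_nchk, eqB_nchk]
    by_cases h1 : n = e i
    · by_cases h2 : n = e j
      · have h3 : i = j := he (h1.symm.trans h2)
        subst h3
        rw [if_pos h1, top_inf_eq, top_inf_eq]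
        refine le_trans ?_ (eqB_trans y (ochk i.1) y')
        rw [eqB_symm y' (ochk i.1)]
      · rw [if_neg h2, bot_inf_eq, inf_bot_eq]
        exact bot_le
    · rw [if_neg h1, bot_inf_eq, bot_inf_eq]
      exact bot_le
  · rw [N3_onto_eq, iInf_ochk a _ (E1_extB_iSup fun n => extB_opair_right _ _)]
    refine le_iInf fun b => le_iInf fun hb => ?_
    refine le_iSup_of_le (e ⟨b, hb⟩) ?_
    rw [hm]
    refine le_iSup_of_le (⟨b, hb⟩ : Iio a) ?_
    rw [eqB_refl, eqB_refl, inf_top_eq]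

/-- `ω₁` is uncountable -/
theorem bval_fCtbl_OmB
    (hunc : ∀ g : ℕ → Ω → B, (∀ n a b, a ≠ b → g n a ⊓ g n b = ⊥) → (⨅ a, ⨆ n, g n a) = ⊥)
    (v : ℕ → BSet B) (h0 : v 0 = omB) (h1 : v 1 = OmB B Ω) : bval (fCtbl 1) v = ⊥ := by
  rw [N3_bval 1 (by norm_num) v h0, h1, eq_bot_iff]
  refine iSup_le fun f => ?_
  -- the truth value of f(n) = a, cut down to the value of single-valuedness
  set g : ℕ → Ω → B := fun n a => N3_fun f ⊓ memB (opair (nchk n) (ochk a)) f with hg
  have hdis : ∀ n a b, a ≠ b → g n a ⊓ g n b = ⊥ := by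
    intro n a b hab
    rw [eq_bot_iff, ← eqB_ochk_ne (B := B) a b hab]
    have h2 : N3_fun f ≤ memB (opair (nchk n) (ochk a)) f ⇨
        (memB (opair (nchk n) (ochk b)) f ⇨ eqB (ochk a) (ochk b)) := by
      rw [N3_fun_eq]
      exact (iInf_le _ n).trans ((iInf_le _ (ochk a)).trans (iInf_le _ (ochk b)))
    rw [le_himp_iff, le_himp_iff] at h2
    refine le_trans ?_ h2
    simp only [hg]
    exact le_inf (le_inf (inf_le_left.trans inf_le_left) (inf_le_left.trans inf_le_right))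
      (inf_le_right.trans inf_le_right)
  rw [← hunc g hdis]
  refine le_iInf fun a => ?_
  have h3 : N3_onto (OmB B Ω) f ≤ ⨆ n : ℕ, memB (opair (nchk n) (ochk a)) f := by
    rw [N3_onto_eq]
    refine (iInf_le _ (ochk a)).trans ?_
    rw [memB_ochk_OmB, top_himp]
  refine (inf_le_inf_left _ h3).trans ?_
  rw [inf_iSup_eq]

end Pool.Agent.H96D
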