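import Pool.Agent.Lib.H96D.N1

/-!
# Chunk N4: the value of the guessing clause
-/

set_option autoImplicit false

open Set Function

namespace Pool.Agent.H96D

open Pool.Agent.H5Z BSet Fml

variable {B : Type} [CompleteBooleanAlgebra B] {Ω : Type} [LinearOrder Ω] [WellFoundedLT Ω]

theorem N4_unb (v : ℕ → BSet B) (h1 : v 1 = OmB B Ω) :
    bval fUnb v = ⨅ a : Ω, ⨆ b : Ω, ⨆ _ : a < b, memB (ochk b) (v 4) := by
  have e1 : bval fUnb v = ⨅ a, memB a (OmB B Ω) ⇨
      ⨆ b, memB b (OmB B Ω) ⊓ (memB b (v 4) ⊓ memB a b) := by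
    simp only [fUnb, bval_conj, bval_ex, bval, update_apply]
    simp [h1]
  have hF : ∀ a : BSet B, ExtB (fun b => memB b (v 4) ⊓ memB a b) := fun a =>
    E1_extB_inf (extB_memB_left _) (extB_memB_right _)
  rw [e1, iInf_OmB]
  · refine iInf_congr fun a => ?_
    rw [iSup_OmB _ (hF _)]
    refine iSup_congr fun b => ?_
    by_cases h : a < b
    · rw [memB_ochk_of_lt a b h, inf_top_eq, iSup_pos h]
    · rw [memB_ochk_of_not_lt a b h, inf_bot_eq, iSup_neg h]
  · exact E1_extB_iSup fun b => E1_extB_inf (E1_extB_const _)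
      (E1_extB_inf (E1_extB_const _) (extB_memB_left _))

theorem N4_closed (v : ℕ → BSet B) (h1 : v 1 = OmB B Ω) :
    bval fClosed v = ⨅ a : Ω, ⨅ _ : (Iio a).Nonempty,
        (⨅ b, ⨅ _ : b < a, ⨆ d, ⨆ _ : b < d ∧ d < a, memB (ochk d) (v 4)) ⇨
          memB (ochk a) (v 4) := by
  have e1 : bval fClosed v = ⨅ a, memB a (OmB B Ω) ⇨
      ((⨆ b, memB b a) ⇨ ((⨅ b, memB b a ⇨ ⨆ c, memB c a ⊓ (memB c (v 4) ⊓ memB b c)) ⇨
        memB a (v 4))) := by
    simp only [fClosed, bval_conj, bval_ex, bval, update_apply]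
    simp [h1]
  rw [e1, iInf_OmB]
  · refine iInf_congr fun a => ?_
    have hF : ∀ b : BSet B, ExtB (fun c => memB c (v 4) ⊓ memB b c) := fun b =>
      E1_extB_inf (extB_memB_left _) (extB_memB_right _)
    have hG : ExtB (fun b => ⨆ c : Ω, ⨆ _ : c < a, memB (ochk c) (v 4) ⊓
        memB b (ochk c : BSet B)) :=
      E1_extB_iSup fun c => E1_extB_iSup fun _ => E1_extB_inf (E1_extB_const _) (extB_memB_left _)
    have e2 : (⨅ b, memB b (ochk a) ⇨ ⨆ c, memB c (ochk a) ⊓ (memB c (v 4) ⊓ memB b c)) =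
        ⨅ b : Ω, ⨅ _ : b < a, ⨆ d : Ω, ⨆ _ : b < d ∧ d < a, memB (ochk d) (v 4) := by
      have e3 : ∀ b : BSet B, (⨆ c, memB c (ochk a) ⊓ (memB c (v 4) ⊓ memB b c)) =
          ⨆ c : Ω, ⨆ _ : c < a, memB (ochk c) (v 4) ⊓ memB b (ochk c : BSet B) := fun b =>
        iSup_ochk a _ (hF b)
      simp only [e3]
      rw [iInf_ochk a _ hG]
      refine iInf_congr fun b => iInf_congr fun hb => iSup_congr fun c => ?_
      by_cases hbc : b < c
      · by_cases hca : c < a
        · rw [iSup_pos hca, iSup_pos ⟨hbc, hca⟩, memB_ochk_of_lt b c hbc, inf_top_eq]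
        · rw [iSup_neg hca, iSup_neg (fun h => hca h.2)]
      · rw [iSup_neg (fun h : b < c ∧ c < a => hbc h.1), memB_ochk_of_not_lt b c hbc]
        simp
    have e4 : (⨆ b, memB b (ochk a : BSet B)) = ⨆ b : Ω, ⨆ _ : b < a, (⊤ : B) := by
      have := iSup_ochk a (fun _ : BSet B => (⊤ : B)) (E1_extB_const _)
      simpa only [inf_top_eq] using this
    rw [e2, e4]
    by_cases hn : (Iio a).Nonempty
    · obtain ⟨b, hb⟩ := hn
      rw [iInf_pos ⟨b, hb⟩]
      have e5 : (⨆ b : Ω, ⨆ _ : b < a, (⊤ : B)) = ⊤ := by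
        rw [eq_top_iff]
        exact le_iSup_of_le b (le_iSup_of_le hb le_rfl)
      rw [e5, top_himp]
    · rw [iInf_neg hn]
      have e5 : (⨆ b : Ω, ⨆ _ : b < a, (⊤ : B)) = ⊥ := by
        rw [eq_bot_iff]
        exact iSup_le fun b => iSup_le fun hb => (hn ⟨b, hb⟩).elim
      rw [e5, bot_himp]
  · exact E1_extB_himp (E1_extB_iSup fun b => extB_memB_right b)
      (E1_extB_himp (E1_extB_iInf fun b => E1_extB_himp (extB_memB_right b)
        (E1_extB_iSup fun c => E1_extB_inf (extB_memB_right c) (E1_extB_const _)))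
        (extB_memB_left _))

theorem N4_hit (v : ℕ → BSet B) (h1 : v 1 = OmB B Ω) (f : Ω → Ω → B) (h2 : v 2 = rn f) :
    bval fHit v = ⨆ a : Ω, memB (ochk a) (v 4) ⊓
      ⨅ b : Ω, ⨅ _ : b < a, iffB (memB (ochk b) (v 3)) (f a b) := by
  have e0 := fun w : ℕ → BSet B => bval_fRel 5 6 2 (by decide) (by decide) (by decide) w
  have e1 : bval fHit v = ⨆ a, memB a (OmB B Ω) ⊓ (memB a (v 4) ⊓
      ⨅ b, memB b a ⇨ iffB (memB b (v 3)) (memB (opair a b) (rn f))) := by
    simp only [fHit, bval_conj, bval_ex, bval_iff, bval, e0, update_apply, iffB]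
    simp [h1, h2]
  have hF : ∀ a : BSet B, ExtB (fun b => iffB (memB b (v 3)) (memB (opair a b) (rn f))) :=
    fun a => E1_extB_iffB (extB_memB_left _) (extB_opair_right _ _)
  rw [e1, iSup_OmB]
  · refine iSup_congr fun a => ?_
    rw [iInf_ochk a _ (hF _)]
    simp only [memB_rn]
  · exact E1_extB_inf (extB_memB_left _) (E1_extB_iInf fun b => E1_extB_himp (extB_memB_right b)
      (E1_extB_iffB (E1_extB_const _) (extB_opair_left _ _)))

theorem bval_fGuess (f : Ω → Ω → B) (hf : IsBDia f) (v : ℕ → BSet B) (h1 : v 1 = OmB B Ω)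
    (h2 : v 2 = rn f) : bval fGuess v = ⊤ := by
  change (⨅ X, ⨅ C, bval (imp fUnb (imp fClosed fHit)) (update (update v 3 X) 4 C)) = ⊤
  rw [iInf_eq_top]
  intro X
  rw [iInf_eq_top]
  intro C
  set u := update (update v 3 X) 4 C with hu
  have u1 : u 1 = OmB B Ω := by rw [← h1]; rfl
  have u2 : u 2 = rn f := by rw [← h2]; rfl
  change bval fUnb u ⇨ (bval fClosed u ⇨ bval fHit u) = ⊤
  rw [N4_unb u u1, N4_closed u u1, N4_hit u u1 f u2, himp_himp, himp_eq_top_iff]
  exact hf.guess (fun b => memB (ochk b) (u 3)) (fun b => memB (ochk b) (u 4))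

end Pool.Agent.H96D
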