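import Pool.Agent.Lib.H96D.N2
import Pool.Agent.Lib.H96D.N3
import Pool.Agent.Lib.H96D.N4

/-!
# Chunk N5: the diamond principle in the quotient
-/

set_option autoImplicit false

open Set Function

namespace Pool.Agent.H96D

open Pool.Agent.H5Z BSet Fml

variable {B : Type} [CompleteBooleanAlgebra B] {Ω : Type} [LinearOrder Ω] [WellFoundedLT Ω]

theorem bval_fOmegaOne (hΩ : IsW1 Ω)
    (hunc : ∀ g : ℕ → Ω → B, (∀ n a b, a ≠ b → g n a ⊓ g n b = ⊥) → (⨅ a, ⨆ n, g n a) = ⊥)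
    (v : ℕ → BSet B) (h0 : v 0 = omB) (h1 : v 1 = OmB B Ω) : bval fOmegaOne v = ⊤ := by
  have e3 : bval (all 5 (imp (mem 5 1) (fCtbl 5))) v = ⊤ := by
    have h : ∀ a, bval (fCtbl 5) (update v 5 a) = ⨆ f, N3_fun f ⊓ N3_onto a f := by
      intro a
      have := N3_bval 5 (by norm_num) (update v 5 a) (by simp [h0])
      simpa using this
    change (⨅ a, memB (update v 5 a 5) (update v 5 a 1) ⇨ bval (fCtbl 5) (update v 5 a)) = ⊤
    have e4 : (⨅ a, memB (update v 5 a 5) (update v 5 a 1) ⇨ bval (fCtbl 5) (update v 5 a)) =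
        ⨅ a, memB a (OmB B Ω) ⇨ bval (fCtbl 5) (update v 5 a) := by
      refine iInf_congr fun a => ?_
      simp [h1]
    rw [e4, iInf_OmB _ (extB_bval _ v 5), iInf_eq_top]
    intro a
    exact bval_fCtbl_ochk hΩ 5 (by norm_num) _ (by simp [h0]) a (by simp)
  rw [fOmegaOne, bval_conj, bval_conj, bval_neg, bval_fOrd v h1, bval_fCtbl_OmB hunc v h0 h1, e3]
  simp

theorem diaIn_quot (U : UF B) (hΩ : IsW1 Ω) (f : Ω → Ω → B) (h : IsBDia f) :
    DiaIn (EU U) := by
  let v0 : ℕ → BSet B := fun n => if n = 0 then omB else if n = 1 then OmB B Ω else rn f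
  have hb : bval fBody v0 = ⊤ := by
    unfold fBody
    rw [bval_conj, bval_conj, bval_fOmega v0 rfl, bval_fOmegaOne hΩ h.unc v0 rfl rfl,
      bval_fGuess f h v0 rfl rfl]
    simp
  have h1 : Sat (EU U) fBody (fun i => cls U (v0 i)) := (los U fBody v0).2 (by rw [hb]; exact U.top)
  rw [← sat_fDia (EU U) (fun i => cls U (v0 i)), fDia, sat_ex]
  refine ⟨cls U (v0 0), ?_⟩
  rw [sat_ex]
  refine ⟨cls U (v0 1), ?_⟩
  rw [sat_ex]
  refine ⟨cls U (v0 2), ?_⟩
  have e0 : update (fun i => cls U (v0 i)) 0 (cls U (v0 0)) = fun i => cls U (v0 i) :=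
    update_eq_self 0 (fun i => cls U (v0 i))
  have e1 : update (fun i => cls U (v0 i)) 1 (cls U (v0 1)) = fun i => cls U (v0 i) :=
    update_eq_self 1 (fun i => cls U (v0 i))
  have e2 : update (fun i => cls U (v0 i)) 2 (cls U (v0 2)) = fun i => cls U (v0 i) :=
    update_eq_self 2 (fun i => cls U (v0 i))
  rw [e0, e1, e2]
  exact h1

end Pool.Agent.H96D
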