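import Pool.Agent.Lib.H5Z.A1
import Pool.Agent.Lib.H96D.Defs

/-!
# Chunk T1: countability in `ZFSet`
-/

set_option autoImplicit false

open Set Function

namespace Pool.Agent.H96D

open Pool.Agent.H5Z

theorem ctblIn_iff (w x : ZFSet.{0}) (hw : IsOmega (fun x y : ZFSet.{0} => x ∈ y) w) :
    CtblIn (fun x y : ZFSet.{0} => x ∈ y) w x ↔ {y | y ∈ x}.Countable := by
  classical
  have hw' := isOmega_iff w hw
  constructor
  · rintro ⟨f, hf, hx⟩
    have h1 : ∀ y : {y | y ∈ x}, ∃ n : ℕ, ZFSet.pair (zn n) y.1 ∈ f := by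
      intro y
      obtain ⟨n, hn, hny⟩ := hx y.1 y.2
      obtain ⟨m, rfl⟩ := (hw' n).1 hn
      exact ⟨m, (rel_iff _ _ _).1 hny⟩
    choose e he using h1
    refine Set.countable_iff_exists_injective.2 ⟨e, ?_⟩
    intro y y' h
    apply Subtype.ext
    have h2 := he y'
    rw [← h] at h2
    exact hf (zn (e y)) y.1 y'.1 ((hw' _).2 ⟨_, rfl⟩) ((rel_iff _ _ _).2 (he y))
      ((rel_iff _ _ _).2 h2)
  · intro h
    obtain ⟨e, he⟩ := Set.countable_iff_exists_injective.1 h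
    let f : ZFSet.{0} := ZFSet.sep (fun p => ∃ (y : {y | y ∈ x}), p = ZFSet.pair (zn (e y)) y.1)
      (w.prod x)
    have hf : ∀ n y, ZFSet.pair n y ∈ f ↔ ∃ (z : {y | y ∈ x}), n = zn (e z) ∧ y = z.1 := by
      intro n y
      simp only [f, ZFSet.mem_sep, ZFSet.pair_mem_prod]
      constructor
      · rintro ⟨-, z, hz⟩
        obtain ⟨h1, h2⟩ := ZFSet.pair_injective hz
        exact ⟨z, h1, h2⟩
      · rintro ⟨z, rfl, rfl⟩
        exact ⟨⟨(hw' _).2 ⟨_, rfl⟩, z.2⟩, z, rfl⟩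
    refine ⟨f, ?_, ?_⟩
    · intro n y y' hn h1 h2
      rw [rel_iff, hf] at h1 h2
      obtain ⟨z, h3, h4⟩ := h1
      obtain ⟨z', h3', h4'⟩ := h2
      have h5 : e z = e z' := zn_inj (h3.symm.trans h3')
      rw [h4, h4', he h5]
    · intro y hy
      refine ⟨zn (e ⟨y, hy⟩), (hw' _).2 ⟨_, rfl⟩, ?_⟩
      rw [rel_iff, hf]
      exact ⟨⟨y, hy⟩, rfl, rfl⟩

theorem countable_toZFSet (o : Ordinal.{0}) :
    {y | y ∈ o.toZFSet}.Countable ↔ o < Ordinal.omega 1 := by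
  have h1 : {y | y ∈ o.toZFSet} = Ordinal.toZFSet '' Iio o := by
    ext y
    simp only [mem_ofPred_eq, Ordinal.mem_toZFSet_iff, mem_image, mem_Iio]
  have h2 : o < Ordinal.omega 1 ↔ (Iio o).Countable := by
    rw [← Cardinal.ord_aleph, Cardinal.lt_ord, ← Cardinal.succ_aleph0, Order.lt_succ_iff,
      ← Cardinal.le_aleph0_iff_set_countable, Cardinal.mk_Iio_ordinal]
    exact Cardinal.lift_le_aleph0.symm
  rw [h1, h2]
  exact ⟨fun h => Set.countable_of_injective_of_countable_image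
    Ordinal.toZFSet_injective.injOn h, fun h => h.image _⟩

end Pool.Agent.H96D
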