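import Pool.Agent.Lib.H94.DiaDefs
import Pool.Agent.Lib.H96D.T1

/-!
# Chunk T2: the sentence for the universe of sets gives Jensen's diamond
-/

set_option autoImplicit false

open Set Function

namespace Pool.Agent.H96D

open Pool.Agent.H5Z

/-- `ω₁` of the universe of sets -/
theorem omegaOne_iff (w k : ZFSet.{0}) (hw : IsOmega (fun x y : ZFSet.{0} => x ∈ y) w)
    (hk : IsOmegaOne (fun x y : ZFSet.{0} => x ∈ y) w k) : k = (Ordinal.omega 1).toZFSet := by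
  obtain ⟨hord, hunc, hcnt⟩ := hk
  have h1 : k.IsOrdinal := ZFSet.isOrdinal_iff_forall_mem_isTransitive.2
    ⟨fun a ha b hb => hord.1 a ha b hb, fun a ha b hb c hc => hord.2 a ha b hb c hc⟩
  obtain ⟨o, rfl⟩ := ZFSet.isOrdinal_iff_mem_range_toZFSet.1 h1
  rw [ctblIn_iff w _ hw, countable_toZFSet, not_lt] at hunc
  refine congrArg _ (le_antisymm ?_ hunc)
  by_contra hc
  push Not at hc
  have h2 := hcnt (Ordinal.omega 1).toZFSet (Ordinal.toZFSet_mem_toZFSet_iff.2 hc)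
  rw [ctblIn_iff w _ hw, countable_toZFSet] at h2
  exact lt_irrefl _ h2

theorem diamond_of_diaIn (h : DiaIn (fun x y : ZFSet.{0} => x ∈ y)) :
    Pool.Agent.H94.Dia.Diamond := by
  classical
  obtain ⟨w, k, s, hw, hk, hg⟩ := h
  have hk' := omegaOne_iff w k hw hk
  subst hk'
  -- a set of ordinals as an element of ZFSet
  let Z : Set (Iio (Ordinal.omega 1 : Ordinal.{0})) → ZFSet.{0} := fun S =>
    ZFSet.sep (fun z => ∃ b : Iio (Ordinal.omega 1 : Ordinal.{0}), b ∈ S ∧ z = b.1.toZFSet)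
      (Ordinal.omega 1).toZFSet
  have hZ : ∀ (S : Set (Iio (Ordinal.omega 1 : Ordinal.{0})))
      (b : Iio (Ordinal.omega 1 : Ordinal.{0})), b.1.toZFSet ∈ Z S ↔ b ∈ S := by
    intro S b
    simp only [Z, ZFSet.mem_sep]
    constructor
    · rintro ⟨-, c, hc, hcb⟩
      have : b = c := Subtype.ext (Ordinal.toZFSet_injective hcb)
      rw [this]
      exact hc
    · intro hb
      exact ⟨Ordinal.toZFSet_mem_toZFSet_iff.2 b.2, b, hb, rfl⟩
  have hlim : ∀ a : Ordinal.{0}, a < Ordinal.omega 1 → Order.succ a < Ordinal.omega 1 :=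
    fun a ha => by
      rw [← Cardinal.ord_aleph] at ha ⊢
      exact (Cardinal.isSuccLimit_ord (Cardinal.aleph0_le_aleph 1)).succ_lt ha
  refine ⟨fun a => {b | ZFSet.pair a.1.toZFSet b.1.toZFSet ∈ s} ∩ Iio a, fun S C hC => ?_⟩
  have hU : IsUnbIn (fun x y : ZFSet.{0} => x ∈ y) (Ordinal.omega 1).toZFSet (Z C) := by
    intro a ha
    obtain ⟨a', ha', rfl⟩ := Ordinal.mem_toZFSet_iff.1 ha
    obtain ⟨b, hb, hab⟩ := hC.isCofinal ⟨Order.succ a', hlim a' ha'⟩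
    refine ⟨b.1.toZFSet, Ordinal.toZFSet_mem_toZFSet_iff.2 b.2, (hZ C b).2 hb,
      Ordinal.toZFSet_mem_toZFSet_iff.2 ?_⟩
    exact (Order.lt_succ a').trans_le hab
  have hD : IsClosedIn (fun x y : ZFSet.{0} => x ∈ y) (Ordinal.omega 1).toZFSet (Z C) := by
    intro a ha hne hlimit
    obtain ⟨a', ha', rfl⟩ := Ordinal.mem_toZFSet_iff.1 ha
    refine (hZ C ⟨a', ha'⟩).2 ?_
    obtain ⟨b0, hb0⟩ := hne
    have key : ∀ b : Ordinal.{0}, b < a' → ∃ c : Iio (Ordinal.omega 1 : Ordinal.{0}),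
        c.1 < a' ∧ c ∈ C ∧ b < c.1 := by
      intro b hb
      obtain ⟨c, hc1, hc2, hc3⟩ := hlimit b.toZFSet (Ordinal.toZFSet_mem_toZFSet_iff.2 hb)
      obtain ⟨c', hc', rfl⟩ := Ordinal.mem_toZFSet_iff.1 hc1
      exact ⟨⟨c', hc'.trans ha'⟩, hc', (hZ C ⟨c', hc'.trans ha'⟩).1 hc2,
        Ordinal.toZFSet_mem_toZFSet_iff.1 hc3⟩
    refine hC.isLUB_mem (t := {c | c ∈ C ∧ c.1 < a'}) (fun c hc => hc.1) ?_ ?_
    · obtain ⟨b', hb', rfl⟩ := Ordinal.mem_toZFSet_iff.1 hb0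
      obtain ⟨c, hc1, hc2, -⟩ := key b' hb'
      exact ⟨c, hc2, hc1⟩
    · constructor
      · intro c hc
        exact hc.2.le
      · intro c hc
        by_contra hcon
        have hlt : c.1 < a' := not_le.1 hcon
        obtain ⟨d, hd1, hd2, hd3⟩ := key c.1 hlt
        exact absurd (hc ⟨hd2, hd1⟩) (not_le.2 hd3)
  obtain ⟨a, hak, haC, haX⟩ := hg (Z S) (Z C) hU hD
  obtain ⟨a', ha', rfl⟩ := Ordinal.mem_toZFSet_iff.1 hak
  refine ⟨⟨a', ha'⟩, ?_, (hZ C ⟨a', ha'⟩).1 haC⟩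
  simp only [mem_ofPred_eq]
  ext b
  simp only [mem_inter_iff, mem_Iio, mem_ofPred_eq]
  constructor
  · rintro ⟨h1, h2⟩
    have h3 : b.1.toZFSet ∈ a'.toZFSet := Ordinal.toZFSet_mem_toZFSet_iff.2 h2
    exact ⟨(rel_iff _ _ _).1 ((haX _ h3).1 ((hZ S b).2 h1)), h2⟩
  · rintro ⟨h1, h2⟩
    have h3 : b.1.toZFSet ∈ a'.toZFSet := Ordinal.toZFSet_mem_toZFSet_iff.2 h2
    exact ⟨(hZ S b).1 ((haX _ h3).2 ((rel_iff _ _ _).2 h1)), h2⟩

end Pool.Agent.H96D
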