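import Pool.Agent.Lib.H5Z.ZMain
import Pool.Agent.Lib.H96D.F2
import Pool.Agent.Lib.H96D.N5
import Pool.Agent.Lib.H96D.T2
import Pool.Agent.Lib.H96D.S1

/-!
# A model of ZFC with Jensen's diamond
-/

set_option autoImplicit false

open Set Function

namespace Pool.Agent.H96D

open Pool.Agent.H5Z

/-- `ω₁` as a well-ordered type in `Type` -/
abbrev W0 : Type := (Cardinal.aleph.{0} 1).ord.ToType

theorem isW1_W0 : IsW1 W0 := by
  constructor
  · intro h
    have h1 : Cardinal.mk W0 ≤ Cardinal.aleph0 := Cardinal.mk_le_aleph0_iff.2 h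
    rw [Cardinal.mk_toType, Cardinal.card_ord] at h1
    exact absurd h1 (not_le.2 Cardinal.aleph0_lt_aleph_one)
  · intro a
    rw [← Cardinal.le_aleph0_iff_set_countable, ← Order.lt_succ_iff, Cardinal.succ_aleph0]
    exact Cardinal.mk_Iio_toType_ord_lt a

/-- There is a model of ZFC in which Jensen's diamond holds. -/
theorem exists_diamond_model : ∃ (M : Type 1) (E : M → M → Prop), ModelsZFC E ∧ DiaIn E := by
  have h0 : Nonempty (Dc W0) := by
    have : Nonempty W0 := by
      by_contra h
      rw [not_nonempty_iff] at h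
      exact isW1_W0.unc inferInstance
    exact ⟨⟨Classical.arbitrary _, fun _ => ∅⟩⟩
  obtain ⟨U⟩ := exists_UF (RO (Dc W0))
  exact ⟨Mod U, EU U, modelsZFC U, diaIn_quot U isW1_W0 gv (isBDia_gv isW1_W0)⟩

/-- In the universe of sets, the sentence gives the continuum hypothesis and a Suslin tree. -/
theorem consequences (h : DiaIn (fun x y : ZFSet.{0} => x ∈ y)) :
    Pool.Agent.H94.Dia.Diamond ∧ (Cardinal.continuum : Cardinal.{0}) = Cardinal.aleph 1 ∧
      ∃ (T : Type) (_ : PartialOrder T), Helper88.SuslinTree.IsSuslinTree T :=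
  ⟨diamond_of_diaIn h, ch_of_diamond (diamond_of_diaIn h),
    exists_suslin_of_diamond (diamond_of_diaIn h)⟩

end Pool.Agent.H96D
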