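import Pool.Agent.Lib.H96D.Force

/-!
# Chunk F1: the forcing is countably closed, so `ω₁` stays uncountable
-/

set_option autoImplicit false

open Set Function

namespace Pool.Agent.H96D

open Pool.Agent.H5Z BSet Fml

variable {Ω : Type} [LinearOrder Ω] [WellFoundedLT Ω]

/-- countable sets are strictly bounded -/
theorem IsW1.bdd (hΩ : IsW1 Ω) (f : ℕ → Ω) : ∃ a, ∀ n, f n < a := by
  by_contra hc
  push Not at hc
  refine hΩ.unc ?_
  have h1 : (⋃ n, Iic (f n)) = univ := by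
    rw [eq_univ_iff_forall]
    intro a
    obtain ⟨n, hn⟩ := hc a
    exact mem_iUnion.2 ⟨n, hn⟩
  have h2 : (univ : Set Ω).Countable := by
    rw [← h1]
    refine countable_iUnion fun n => ?_
    rw [← Iio_insert]
    exact (hΩ.ini _).insert _
  exact countable_univ_iff.1 h2

theorem IsW1.exists_gt (hΩ : IsW1 Ω) (a : Ω) : ∃ b, a < b := by
  obtain ⟨b, hb⟩ := hΩ.bdd (fun _ => a)
  exact ⟨b, hb 0⟩

theorem F1_anti (p : ℕ → Dc Ω) (hp : ∀ n, p (n + 1) ≤ p n) (m n : ℕ) (h : m ≤ n) : p n ≤ p m := by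
  induction n, h using Nat.le_induction with
  | base => exact le_rfl
  | succ n _ ih => exact (hp n).trans ih

/-- descending sequences have lower bounds of length the supremum of the lengths -/
theorem exists_lower (hΩ : IsW1 Ω) (p : ℕ → Dc Ω) (hp : ∀ n, p (n + 1) ≤ p n) :
    ∃ q : Dc Ω, (∀ n, q ≤ p n) ∧ ∀ a, a < q.len → ∃ n, a < (p n).len := by
  classical
  obtain ⟨b, hb⟩ := hΩ.bdd (fun n => (p n).len)
  let S : Set Ω := {a | ∀ n, (p n).len ≤ a}
  have hS : S.Nonempty := ⟨b, fun n => (hb n).le⟩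
  let δ := wellFounded_lt.min S hS
  have hδ : δ ∈ S := wellFounded_lt.min_mem S hS
  refine ⟨⟨δ, fun a => {x | ∃ n, a < (p n).len ∧ x ∈ (p n).s a}⟩, fun n => ⟨hδ n, ?_⟩, ?_⟩
  · intro a ha
    ext x
    constructor
    · rintro ⟨m, hm, hx⟩
      rcases le_total m n with h | h
      · rw [(F1_anti p hp m n h).2 a hm]
        exact hx
      · rw [(F1_anti p hp n m h).2 a ha] at hx
        exact hx
    · intro hx
      exact ⟨n, ha, hx⟩
  · intro a ha
    by_contra hc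
    push Not at hc
    exact wellFounded_lt.not_lt_min S (show a ∈ S from hc) ha

theorem forcing_unc (hΩ : IsW1 Ω) (g : ℕ → Ω → RO (Dc Ω))
    (hg : ∀ n a b, a ≠ b → g n a ⊓ g n b = ⊥) : (⨅ a, ⨆ n, g n a) = ⊥ := by
  classical
  rw [RO.eq_bot_iff']
  intro p hp
  rw [RO.mem_iInf] at hp
  -- step: decide g n
  have step : ∀ (n : ℕ) (q : Dc Ω), ∃ r ≤ q, (∃ a, r ∈ (g n a).s) ∨ ∀ a, ∀ r' ≤ r, r' ∉ (g n a).s := by
    intro n q
    by_cases h : ∃ a, ∃ r ≤ q, r ∈ (g n a).s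
    · obtain ⟨a, r, hr, hra⟩ := h
      exact ⟨r, hr, Or.inl ⟨a, hra⟩⟩
    · push Not at h
      exact ⟨q, le_rfl, Or.inr h⟩
  choose nx hnx hnx2 using step
  let P : ℕ → Dc Ω := fun n => Nat.rec p (fun n q => nx n q) n
  have hP : ∀ n, P (n + 1) ≤ P n := fun n => hnx n (P n)
  have hP2 : ∀ n, (∃ a, P (n + 1) ∈ (g n a).s) ∨ ∀ a, ∀ r' ≤ P (n + 1), r' ∉ (g n a).s :=
    fun n => hnx2 n (P n)
  obtain ⟨q, hq, -⟩ := exists_lower hΩ P hP
  let A : Set Ω := ⋃ n, {a | P (n + 1) ∈ (g n a).s}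
  have hA : A.Countable := by
    refine countable_iUnion fun n => ?_
    refine Set.Subsingleton.countable ?_
    intro a ha b hb
    by_contra hab
    have h1 : P (n + 1) ∈ (g n a ⊓ g n b).s := ⟨ha, hb⟩
    rw [hg n a b hab] at h1
    exact h1
  obtain ⟨a, ha⟩ : ∃ a, a ∉ A := by
    by_contra hc
    push Not at hc
    exact hΩ.unc (countable_univ_iff.1 (hA.mono fun a _ => hc a))
  have h2 : q ∈ (⨆ n, g n a).s := (⨆ n, g n a).lower (hp a) (hq 0)
  rw [RO.mem_iSup] at h2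
  obtain ⟨r, hr, n, hn⟩ := h2 q le_rfl
  have hrn : r ≤ P (n + 1) := hr.trans (hq (n + 1))
  rcases hP2 n with ⟨b, hb⟩ | h3
  · by_cases hab : a = b
    · subst hab
      exact ha (mem_iUnion.2 ⟨n, hb⟩)
    · have h1 : r ∈ (g n a ⊓ g n b).s := ⟨hn, (g n b).lower hb hrn⟩
      rw [hg n a b hab] at h1
      exact h1
  · exact h3 a r hrn hn

end Pool.Agent.H96D
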