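import Pool.Agent.Lib.H96D.Names

/-!
# The forcing: countable sequences of guesses
-/

set_option autoImplicit false

open Set Function

namespace Pool.Agent.H96D

open Pool.Agent.H5Z BSet Fml

/-- A condition: a length `len` and guesses `s a` for all `a` (only those for `a < len` count). -/
structure Dc (Ω : Type) where
  len : Ω
  s : Ω → Set Ω

variable {Ω : Type} [LinearOrder Ω]

/-- `q ≤ p`: `q` is at least as long, with the same guesses below the length of `p`. -/
instance : Preorder (Dc Ω) where
  le q p := p.len ≤ q.len ∧ ∀ a, a < p.len → q.s a = p.s a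
  le_refl p := ⟨le_rfl, fun _ _ => rfl⟩
  le_trans r q p h h' := ⟨h'.1.trans h.1, fun a ha => (h.2 a (ha.trans_le h'.1)).trans (h'.2 a ha)⟩

theorem Dc.le_def (q p : Dc Ω) : q ≤ p ↔ p.len ≤ q.len ∧ ∀ a, a < p.len → q.s a = p.s a := Iff.rfl

/-- the value of `b ∈ s_a` -/
def gv (a b : Ω) : RO (Dc Ω) := RO.gen {p | a < p.len ∧ b ∈ p.s a}

end Pool.Agent.H96D
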