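import Pool.Agent.Lib.H5Z.DS
import Pool.Agent.Lib.H96D.Defs

/-!
# The formula of the diamond principle

Variables: `w = 0`, `k = 1`, `s = 2`, `X = 3`, `C = 4`, `a = 5`, `b = 6`, `c = 7`; 90 to 93 are bound
in `fCtbl`.
-/

set_option autoImplicit false

open Set Function

namespace Pool.Agent.H96D

open Pool.Agent.H5Z BSet Fml

/-- `k` is an ordinal (bound variables 5, 6, 7) -/
def fOrd : Fml :=
  conj (all 5 (imp (mem 5 1) (all 6 (imp (mem 6 5) (mem 6 1)))))
    (all 5 (imp (mem 5 1) (all 6 (imp (mem 6 5) (all 7 (imp (mem 7 6) (mem 7 5)))))))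

/-- the relation 90 is single-valued on `ω` -/
def fFun : Fml :=
  all 91 (all 92 (all 93 (imp (mem 91 0) (imp (fRel 91 92 90) (imp (fRel 91 93 90) (eq 92 93))))))

/-- the relation 90 takes at elements of `ω` all elements of `x` as values -/
def fOnto (x : ℕ) : Fml := all 92 (imp (mem 92 x) (ex 91 (conj (mem 91 0) (fRel 91 92 90))))

/-- `x` is countable -/
def fCtbl (x : ℕ) : Fml := ex 90 (conj fFun (fOnto x))

/-- `k` is `ω₁` -/
def fOmegaOne : Fml := conj fOrd (conj (neg (fCtbl 1)) (all 5 (imp (mem 5 1) (fCtbl 5))))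

def fUnb : Fml := all 5 (imp (mem 5 1) (ex 6 (conj (mem 6 1) (conj (mem 6 4) (mem 5 6)))))

def fClosed : Fml :=
  all 5 (imp (mem 5 1) (imp (ex 6 (mem 6 5))
    (imp (all 6 (imp (mem 6 5) (ex 7 (conj (mem 7 5) (conj (mem 7 4) (mem 6 7))))))
      (mem 5 4))))

def fHit : Fml :=
  ex 5 (conj (mem 5 1) (conj (mem 5 4) (all 6 (imp (mem 6 5) (iff (mem 6 3) (fRel 5 6 2))))))

def fGuess : Fml := all 3 (all 4 (imp fUnb (imp fClosed fHit)))

/-- the body, with free variables 0, 1, 2 -/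
def fBody : Fml := conj (fOmega 0) (conj fOmegaOne fGuess)

def fDia : Fml := ex 0 (ex 1 (ex 2 fBody))

theorem sat_rel {M : Type*} (E : M → M → Prop) (x y r : ℕ) (hx : x < 99) (hy : y < 99)
    (hr : r < 99) (v : ℕ → M) : Sat E (fRel x y r) v ↔ Rel E (v x) (v y) (v r) :=
  sat_fRel E x y r ⟨by omega, by omega, by omega⟩ ⟨by omega, by omega, by omega⟩
    ⟨by omega, by omega, by omega⟩ v

theorem sat_fCtbl {M : Type*} (E : M → M → Prop) (x : ℕ) (hx : x < 90) (v : ℕ → M) :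
    Sat E (fCtbl x) v ↔ CtblIn E (v 0) (v x) := by
  have h90 : x ≠ 90 := by omega
  have h91 : x ≠ 91 := by omega
  have h92 : x ≠ 92 := by omega
  have h93 : x ≠ 93 := by omega
  simp only [fCtbl, fFun, fOnto, sat_conj, sat_ex, Sat, CtblIn,
    sat_rel E 91 92 90 (by norm_num) (by norm_num) (by norm_num),
    sat_rel E 91 93 90 (by norm_num) (by norm_num) (by norm_num)]
  simp [h90, h92]

theorem sat_fDia {M : Type*} (E : M → M → Prop) (v : ℕ → M) : Sat E fDia v ↔ DiaIn E := by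
  simp only [fDia, fBody, fOmegaOne, fOrd, fGuess, fUnb, fClosed, fHit, sat_conj, sat_ex,
    sat_fOmega, sat_iff, sat_neg, Sat, DiaIn, IsOmegaOne, IsOrdIn, IsUnbIn, IsClosedIn,
    sat_fCtbl E 1 (by norm_num), sat_fCtbl E 5 (by norm_num),
    sat_rel E 5 6 2 (by norm_num) (by norm_num) (by norm_num)]
  simp

end Pool.Agent.H96D
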