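import Pool.Agent.Lib.H96D.Names

/-!
# Chunk N1: values of equality and membership at canonical names
-/

set_option autoImplicit false

open Set Function

namespace Pool.Agent.H96D

open Pool.Agent.H5Z BSet Fml

variable {B : Type} [CompleteBooleanAlgebra B] {Ω : Type} [LinearOrder Ω] [WellFoundedLT Ω]

theorem N1_lt (a : Ω) : ∀ b, a < b → eqB (ochk a : BSet B) (ochk b) = ⊥ := by
  induction a using WellFoundedLT.induction with
  | ind a ih =>
    intro b hab
    rw [eq_bot_iff, ochk_eq b, eqB_symm, ochk_eq a, eqB]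
    refine inf_le_left.trans ((iInf_le _ (⟨a, hab⟩ : Iio b)).trans ?_)
    rw [top_himp]
    refine iSup_le fun i => ?_
    rw [eqB_symm, ih i.1 i.2 a i.2]
    exact inf_le_right

open Classical in
theorem eqB_ochk (a b : Ω) :
    eqB (ochk a : BSet B) (ochk b) = if a = b then ⊤ else ⊥ := by
  rcases lt_trichotomy a b with h | h | h
  · rw [if_neg h.ne, N1_lt a b h]
  · subst h
    rw [if_pos rfl, eqB_refl]
  · rw [if_neg h.ne', eqB_symm, N1_lt b a h]

theorem eqB_ochk_ne (a b : Ω) (h : a ≠ b) : eqB (ochk a : BSet B) (ochk b) = ⊥ := by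
  rw [eqB_ochk, if_neg h]

theorem iInf_ochk (a : Ω) (F : BSet B → B) (hF : ExtB F) :
    (⨅ z, memB z (ochk a) ⇨ F z) = ⨅ b : Ω, ⨅ _ : b < a, F (ochk b) := by
  rw [D2B_iInf _ _ hF, ochk_eq, iInf_subtype']
  exact iInf_congr fun n => top_himp

theorem iSup_ochk (a : Ω) (F : BSet B → B) (hF : ExtB F) :
    (⨆ z, memB z (ochk a) ⊓ F z) = ⨆ b : Ω, ⨆ _ : b < a, F (ochk b) := by
  rw [D2B_iSup _ _ hF, ochk_eq, iSup_subtype']
  exact iSup_congr fun n => top_inf_eq _

theorem iInf_OmB (F : BSet B → B) (hF : ExtB F) :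
    (⨅ z, memB z (OmB B Ω) ⇨ F z) = ⨅ b : Ω, F (ochk b) := by
  rw [D2B_iInf _ _ hF]
  exact iInf_congr fun n => top_himp

theorem iSup_OmB (F : BSet B → B) (hF : ExtB F) :
    (⨆ z, memB z (OmB B Ω) ⊓ F z) = ⨆ b : Ω, F (ochk b) := by
  rw [D2B_iSup _ _ hF]
  exact iSup_congr fun n => top_inf_eq _

theorem memB_ochk_left (z : BSet B) (a : Ω) :
    memB z (ochk a) = ⨆ b : Ω, ⨆ _ : b < a, eqB z (ochk b) := by
  rw [ochk_eq, memB, iSup_subtype']
  exact iSup_congr fun n => top_inf_eq _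

theorem memB_OmB_left (z : BSet B) : memB z (OmB B Ω) = ⨆ b : Ω, eqB z (ochk b) := by
  rw [OmB, memB]
  exact iSup_congr fun n => top_inf_eq _

open Classical in
theorem memB_ochk (a b : Ω) :
    memB (ochk a : BSet B) (ochk b) = if a < b then ⊤ else ⊥ := by
  rw [memB_ochk_left]
  by_cases h : a < b
  · rw [if_pos h, eq_top_iff]
    refine le_iSup_of_le a (le_iSup_of_le h ?_)
    rw [eqB_refl]
  · rw [if_neg h, eq_bot_iff]
    refine iSup_le fun c => iSup_le fun hc => ?_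
    rw [eqB_ochk_ne a c (fun h' => h (h' ▸ hc))]

theorem memB_ochk_of_lt (a b : Ω) (h : a < b) : memB (ochk a : BSet B) (ochk b) = ⊤ := by
  rw [memB_ochk, if_pos h]

theorem memB_ochk_of_not_lt (a b : Ω) (h : ¬ a < b) : memB (ochk a : BSet B) (ochk b) = ⊥ := by
  rw [memB_ochk, if_neg h]

theorem memB_ochk_OmB (a : Ω) : memB (ochk a : BSet B) (OmB B Ω) = ⊤ :=
  top_le_iff.1 (val_le_memB (OmB B Ω) a)

theorem memB_rn (f : Ω → Ω → B) (a b : Ω) : memB (opair (ochk a) (ochk b)) (rn f) = f a b := by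
  rw [rn, memB]
  apply le_antisymm
  · refine iSup_le fun p => ?_
    rw [eqB_opair]
    by_cases h1 : a = p.1
    · by_cases h2 : b = p.2
      · rw [← h1, ← h2]
        exact inf_le_left
      · rw [eqB_ochk_ne b p.2 h2, inf_bot_eq, inf_bot_eq]
        exact bot_le
    · rw [eqB_ochk_ne a p.1 h1, bot_inf_eq, inf_bot_eq]
      exact bot_le
  · refine le_iSup_of_le (a, b) ?_
    rw [eqB_refl, inf_top_eq]

end Pool.Agent.H96D
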