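import Pool.Agent.Lib.H96D.N1

/-!
# Chunk N2: the canonical name of `ω₁` is an ordinal
-/

set_option autoImplicit false

open Set Function

namespace Pool.Agent.H96D

open Pool.Agent.H5Z BSet Fml

variable {B : Type} [CompleteBooleanAlgebra B] {Ω : Type} [LinearOrder Ω] [WellFoundedLT Ω]

theorem bval_fOrd (v : ℕ → BSet B) (h1 : v 1 = OmB B Ω) : bval fOrd v = ⊤ := by
  have e1 : bval fOrd v =
      (⨅ a, memB a (OmB B Ω) ⇨ ⨅ b, memB b a ⇨ memB b (OmB B Ω)) ⊓
      (⨅ a, memB a (OmB B Ω) ⇨ ⨅ b, memB b a ⇨ ⨅ c, memB c b ⇨ memB c a) := by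
    simp only [fOrd, bval_conj, bval, update_apply]
    simp [h1]
  have hF : ∀ b : BSet B, ExtB (fun a => memB b a ⇨ memB b (OmB B Ω)) := fun b =>
    E1_extB_himp (extB_memB_right b) (E1_extB_const _)
  have hG : ∀ b : BSet B, ExtB (fun a => memB b a ⇨ ⨅ c, memB c b ⇨ memB c a) := fun b =>
    E1_extB_himp (extB_memB_right b) (E1_extB_iInf fun c => E1_extB_himp (E1_extB_const _)
      (extB_memB_right c))
  rw [e1, iInf_OmB _ (E1_extB_iInf hF), iInf_OmB _ (E1_extB_iInf hG), inf_eq_top_iff,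
    iInf_eq_top, iInf_eq_top]
  constructor
  · intro a
    rw [iInf_ochk a _ (extB_memB_left _)]
    simp only [memB_ochk_OmB, iInf_top]
  · intro a
    have hH : ExtB (fun b => ⨅ c, memB c b ⇨ memB c (ochk a : BSet B)) :=
      E1_extB_iInf fun c => E1_extB_himp (extB_memB_right c) (E1_extB_const _)
    rw [iInf_ochk a _ hH, iInf_eq_top]
    intro b
    rw [iInf_eq_top]
    intro hb
    rw [iInf_ochk b _ (extB_memB_left _), iInf_eq_top]
    intro c
    rw [iInf_eq_top]
    intro hc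
    rw [memB_ochk_of_lt c a (hc.trans hb)]

end Pool.Agent.H96D
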