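import Pool.Agent.Lib.H96D.Form
import Pool.Agent.Lib.H5Z.BRO
import Pool.Agent.Lib.H5Z.D5
import Pool.Agent.Lib.H5Z.D6
import Pool.Agent.Lib.H5Z.E1
import Pool.Agent.Lib.H5Z.C4

/-!
# Names for ordinals, and the Boolean-valued diamond principle

`Ω` is a well-ordered type of order type `ω₁`: uncountable, with countable initial segments.
-/

set_option autoImplicit false

open Set Function

namespace Pool.Agent.H96D

open Pool.Agent.H5Z BSet Fml

/-- `Ω` has order type `ω₁`. -/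
structure IsW1 (Ω : Type) [LinearOrder Ω] : Prop where
  unc : ¬ Countable Ω
  ini : ∀ a : Ω, (Iio a).Countable

variable {B : Type} [CompleteBooleanAlgebra B] {Ω : Type} [LinearOrder Ω] [WellFoundedLT Ω]

/-- canonical name of an element of a well-order -/
noncomputable def ochk : Ω → BSet B :=
  WellFounded.fix wellFounded_lt
    (fun a ih => BSet.mk (Iio a) (fun i => ih i.1 i.2) (fun _ => ⊤))

theorem ochk_eq (a : Ω) :
    (ochk a : BSet B) = BSet.mk (Iio a) (fun i => ochk i.1) (fun _ => ⊤) := by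
  rw [ochk, WellFounded.fix_eq]

/-- canonical name of the whole well-order -/
noncomputable def OmB (B : Type) [CompleteBooleanAlgebra B] (Ω : Type) [LinearOrder Ω] [WellFoundedLT Ω] :
    BSet B := BSet.mk Ω ochk (fun _ => ⊤)

/-- name of a relation on the well-order -/
noncomputable def rn (f : Ω → Ω → B) : BSet B :=
  BSet.mk (Ω × Ω) (fun p => opair (ochk p.1) (ochk p.2)) (fun p => f p.1 p.2)

/-- The Boolean-valued diamond principle: `f a b` is the value of `b ∈ s_a`. -/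
structure IsBDia (f : Ω → Ω → B) : Prop where
  unc : ∀ g : ℕ → Ω → B, (∀ n a b, a ≠ b → g n a ⊓ g n b = ⊥) → (⨅ a, ⨆ n, g n a) = ⊥
  guess : ∀ x c : Ω → B,
    (⨅ a, ⨆ b, ⨆ _ : a < b, c b) ⊓
      (⨅ a, ⨅ _ : (Iio a).Nonempty,
        (⨅ b, ⨅ _ : b < a, ⨆ d, ⨆ _ : b < d ∧ d < a, c d) ⇨ c a) ≤
      ⨆ a, c a ⊓ ⨅ b, ⨅ _ : b < a, iffB (x b) (f a b)

end Pool.Agent.H96D
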